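import Pool.Agent.H27.L1.H68.GHY.Targets

/-!
Board ghk (MP_52e316_nt): definitions and targets for the inequality of Bessel with the weights
`1 / Hn` (the display LSK).
-/

namespace Pool.Agent.H27.L1.H31.GK

open MeasureTheory Pool.Agent.H27.L1.H34.GM Pool.Agent.H27.L1.H34.GZ Pool.Agent.H27.L1.H34.GU Pool.Agent.H27.L1.H34.GA
  Pool.Agent.H27.L1.H68.GHY

/-- the right translate -/
def trn {m N : ℕ} (w : Mat m) (F : Mat m → VN m N → ℂ) (g : Mat m) (x : VN m N) : ℂ := F (g * w) x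

/-- the closed ball about the unit matrix -/
def Bl (m : ℕ) (r : ℝ) : Set (V m) := {z | sz (mt z - 1) ≤ r}

/-- the radius of the small ball -/
noncomputable def r0 (m : ℕ) : ℝ := 1 / (8 * (m : ℝ) ^ 2)

/-- the radius of the large ball -/
noncomputable def r1 (m : ℕ) : ℝ := 1 / (2 * (m : ℝ))

/-- the scalar product of the right translate of `F` by `w` with `G` -/
noncomputable def ipz {m N : ℕ} [NeZero N] (D : Set (V m)) (F G : Mat m → VN m N → ℂ)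
    (w : Mat m) : ℂ :=
  ∑ x, ∫ z in D, F ((mt z : Mat m) * w) x * (starRingEnd ℂ) (G (mt z) x) ∂(hm m)

/-- the mass of the matrix coefficient near the unit matrix -/
noncomputable def Hn {m N : ℕ} [NeZero N] (D : Set (V m)) (F : Mat m → VN m N → ℂ) : ℝ :=
  ∫ z in Bl m (r1 m), ‖ipz D F F (mt z)‖ ^ 2 ∂(hm m)

/-- all the translates are orthogonal -/
def Sep {m N : ℕ} [NeZero N] {ι : Type} (D : Set (V m)) (F : ι → Mat m → VN m N → ℂ) : Prop :=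
  ∀ i j, i ≠ j → ∀ w : Mat m, w.det ≠ 0 → ipz D (F i) (F j) w = 0

/-- the balls -/
def T_BLF : Prop := ∀ m : ℕ, 1 ≤ m →
  (∀ r : ℝ, MeasurableSet (Bl m r)) ∧ (∀ z ∈ Bl m (r1 m), (mt z).det ≠ 0) ∧
  hm m (Bl m (r1 m)) < ⊤ ∧ (∀ r : ℝ, 0 < r → 0 < hm m (Bl m r)) ∧
  ∀ z ∈ Bl m (r0 m), ∀ w ∈ Bl m (r0 m), sz ((mt w)⁻¹ * mt z - 1) ≤ r1 m

/-- the translates are cusp forms -/
def T_TRN : Prop := ∀ (m N : ℕ) [NeZero N] (T : ℕ → Finset (ZM m)) (F : Mat m → VN m N → ℂ)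
  (lam : ℕ → ℂ) (w : Mat m), w.det ≠ 0 →
    (HecA m N T F lam → HecA m N T (trn w F) lam) ∧ (CusB m N T F lam → CusB m N T (trn w F) lam)

/-- scalar products of translates -/
def T_TRI : Prop := ∀ (m N : ℕ) [NeZero N] (T : ℕ → Finset (ZM m)) (D : Set (V m)),
  SysZ m N T D → ∀ (F G : Mat m → VN m N → ℂ) (lam lam' : ℕ → ℂ), HecA m N T F lam →
  HecA m N T G lam' → ∀ w w' : Mat m, w.det ≠ 0 → w'.det ≠ 0 →
    ∑ x, ∫ z in D, F ((mt z : Mat m) * w) x * (starRingEnd ℂ) (G ((mt z : Mat m) * w') x) ∂(hm m) =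
      ipz D F G (w'⁻¹ * w)

/-- norm and Lipschitz constant of the translates -/
def T_TLP : Prop := ∀ m : ℕ, 1 ≤ m → ∃ C : ℝ, 1 ≤ C ∧
  ∀ (N : ℕ) [NeZero N] (T : ℕ → Finset (ZM m)) (D : Set (V m)), SysZ m N T D →
  ∀ (F : Mat m → VN m N → ℂ) (lam : ℕ → ℂ), HecA m N T F lam → nU D F = 1 →
  ∀ P : ℝ, 0 ≤ P → Lip D F P → ∀ w : Mat m, sz (w - 1) ≤ r0 m →
    nU D (trn w F) = 1 ∧ Lip D (trn w F) (C * (1 + P))

/-- averages of translates -/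
def T_GHA : Prop := ∀ (m N : ℕ) [NeZero N] (T : ℕ → Finset (ZM m)) (D : Set (V m)),
  SysZ m N T D → ∀ (F : Mat m → VN m N → ℂ) (lam : ℕ → ℂ), HecA m N T F lam →
  ∀ (c : V m → ℂ) (M : ℝ), Measurable c → (∀ z, ‖c z‖ ≤ M) →
    HecA m N T (fun g x => ∫ z in Bl m (r0 m), c z * F (g * mt z) x ∂(hm m)) lam ∧
    ∀ Φ : Mat m → ℂ, Tg m Φ → ∀ (g : Mat m) (x : VN m N), g.det ≠ 0 →
      Rr Φ 1 (fun g x => ∫ z in Bl m (r0 m), c z * F (g * mt z) x ∂(hm m)) g x =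
        ∫ z in Bl m (r0 m), c z * Rr Φ 1 (trn (mt z) F) g x ∂(hm m)

/-- the double integral -/
def T_QIN : Prop := ∀ (m N : ℕ) [NeZero N] (T : ℕ → Finset (ZM m)) (D : Set (V m)),
  SysZ m N T D → ∀ (F : Mat m → VN m N → ℂ) (lam : ℕ → ℂ), HecA m N T F lam →
    ∫ p, ‖ipz D F F ((mt p.2)⁻¹ * mt p.1)‖ ^ 2 ∂(((hm m).restrict (Bl m (r0 m))).prod
      ((hm m).restrict (Bl m (r0 m)))) ≤ (hm m (Bl m (r0 m))).toReal * Hn D F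

/-- positivity -/
def T_HPO : Prop := ∀ (m N : ℕ) [NeZero N] (T : ℕ → Finset (ZM m)) (D : Set (V m)),
  SysZ m N T D → ∀ (F : Mat m → VN m N → ℂ) (lam : ℕ → ℂ), HecA m N T F lam → nU D F = 1 →
  ∀ P : ℝ, 0 ≤ P → Lip D F P → 0 < Hn D F

/-- the inequality of Bessel with the weights `1 / Hn` -/
def T_BES : Prop := ∀ (m : ℕ) (χ : ℝ → ℝ), 1 ≤ m → Prof χ → ∃ (c C : ℝ) (A : ℕ), 0 < c ∧
  1 ≤ C ∧ ∀ (N : ℕ) [NeZero N] (T : ℕ → Finset (ZM m)) (D : Set (V m)), SysZ m N T D →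
  ∀ (ι : Type) [Fintype ι] [DecidableEq ι] (F : ι → Mat m → VN m N → ℂ) (lam : ι → ℕ → ℂ) (P : ℝ),
  (∀ i, CusB m N T (F i) (lam i) ∧ Lip D (F i) P ∧ nU D (F i) = 1) → Sep D F → 0 ≤ P →
  ∀ δ : ℝ, 0 < δ → δ ≤ 1 / 2 → δ * (1 + P) ≤ c →
  ∀ Y : ℝ, C * N * δ⁻¹ ^ A ≤ Y →
    (∀ i, 0 < Hn D (F i)) ∧
    ∀ (y : ℝ) (a : ℕ → ℂ) (x0 : ℝ), 1 ≤ y → Coe y a → 0 < x0 →
      ENNReal.ofReal (c * tb m χ δ ^ 2) *
        ∑ i, ENNReal.ofReal (Hn D (F i))⁻¹ * ENNReal.ofReal (‖Bs m (lam i) a y δ x0‖ ^ 2) ≤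
      ∫⁻ g in DY D Y, Ed N D δ y x0 (mt g) ∂(hm m)

end Pool.Agent.H27.L1.H31.GK
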