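import Pool.Agent.H27.L1.H31.GK.BSL

/-!
Board ghk (MP_52e316_nt): the abstract large sieve for the averages, with the norm of the averages as
hypothesis.
-/

set_option autoImplicit false

namespace Pool.Agent.H27.L1.H31.GK

open MeasureTheory ENNReal Pool.Agent.H27.L1.H34.GM

section aver

variable {X Y Z : Type} [MeasurableSpace X] [MeasurableSpace Y] [MeasurableSpace Z]

/-- the abstract large sieve for the averages, second form -/
theorem lsk_abs2 (μ : Measure X) (ν : Measure Y) (ρ : Measure Z) [IsFiniteMeasure μ]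
    [IsFiniteMeasure ν] [IsFiniteMeasure ρ] {ι : Type} [Fintype ι] [DecidableEq ι]
    {S : Set Y} (hS : MeasurableSet S) {K : Y × X → ℂ} (hK : Measurable K)
    {E : ENNReal} (hE : ∫⁻ y in S, ∫⁻ x, ENNReal.ofReal (‖K (y, x)‖ ^ 2) ∂μ ∂ν ≤ E)
    {f : ι → Z × X → ℂ} {g : ι → Z × Y → ℂ} (hf : ∀ i, Measurable (f i))
    (hg : ∀ i, Measurable (g i)) {M : ℝ} (hfM : ∀ i p, ‖f i p‖ ≤ M) (hgM : ∀ i p, ‖g i p‖ ≤ M)
    {b : ι → ℂ} (hop : ∀ i z, ∀ y ∈ S, ∫⁻ x, ENNReal.ofReal (‖K (y, x)‖ ^ 2) ∂μ < ⊤ →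
      ∫ x, K (y, x) * f i (z, x) ∂μ = b i * g i (z, y))
    (horth : ∀ i j, i ≠ j → ∀ z z', ∫ x, f i (z, x) * (starRingEnd ℂ) (f j (z', x)) ∂μ = 0)
    {q : ι → ℝ} (hq0 : ∀ i, 0 < q i)
    (hUq : ∀ i, ∫⁻ p, ENNReal.ofReal (‖Uav ρ (f i) (g i) p‖ ^ 2) ∂(ν.prod μ) ≤
      ENNReal.ofReal (q i))
    {A : ι → ℝ} (hA0 : ∀ i, 0 ≤ A i)
    (hA : ∀ i, A i ≤ ∫ z, ∫ y in S, ‖g i (z, y)‖ ^ 2 ∂ν ∂ρ) :
    ∑ i, ENNReal.ofReal (‖b i‖ ^ 2 * A i ^ 2 / q i) ≤ E := by
  by_cases htop : E = ⊤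
  · rw [htop]
    exact le_top
  have hae : ∀ᵐ y ∂ν, y ∈ S → ∫⁻ x, ENNReal.ofReal (‖K (y, x)‖ ^ 2) ∂μ < ⊤ := by
    have hm : Measurable (fun y => ∫⁻ x, ENNReal.ofReal (‖K (y, x)‖ ^ 2) ∂μ) := by
      have h1 : Measurable (fun p : Y × X => ENNReal.ofReal (‖K p‖ ^ 2)) := by fun_prop
      exact h1.lintegral_prod_right'
    have h2 := ae_lt_top (μ := ν.restrict S) hm (ne_of_lt (lt_of_le_of_lt hE (lt_top_iff_ne_top.2 htop)))
    exact (ae_restrict_iff' hS).1 h2
  obtain ⟨U, hU⟩ : ∃ U : ι → Y × X → ℂ, U = fun i => Uav ρ (f i) (g i) := ⟨_, rfl⟩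
  have hUm : ∀ i, Measurable (U i) := fun i => by
    rw [hU]
    exact uav_meas ρ (hf i) (hg i)
  have hUb : ∀ i p, ‖U i p‖ ≤ M * M * (ρ Set.univ).toReal := fun i p => by
    rw [hU]
    exact uav_bdd ρ (hfM i) (hgM i) p
  have hUL : ∀ i, MemLp (U i) 2 (ν.prod μ) := fun i =>
    MemLp.of_bound (hUm i).aestronglyMeasurable _ (Filter.Eventually.of_forall (hUb i))
  have hUo : ∀ i j, i ≠ j → ∫ p, U i p * (starRingEnd ℂ) (U j p) ∂(ν.prod μ) = 0 := by
    intro i j hij
    rw [hU]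
    simp only
    rw [uav_inner μ ν ρ (hf i) (hg i) (hf j) (hg j) (hfM i) (hgM i) (hfM j) (hgM j)]
    simp only [horth i j hij, mul_zero, integral_zero]
  have hUq' : ∀ i, ∫⁻ p, ENNReal.ofReal (‖U i p‖ ^ 2) ∂(ν.prod μ) ≤ ENNReal.ofReal (q i) := by
    rw [hU]
    exact hUq
  -- the kernel
  obtain ⟨H, hH⟩ : ∃ H : Y × X → ℂ, H = (S ×ˢ Set.univ).indicator K := ⟨_, rfl⟩
  have hHm : Measurable H := by
    rw [hH]
    exact hK.indicator (hS.prod MeasurableSet.univ)
  have hH2 : ∫⁻ p, ENNReal.ofReal (‖H p‖ ^ 2) ∂(ν.prod μ) ≤ E := by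
    refine le_trans (le_of_eq ?_) hE
    rw [lintegral_prod _ (by fun_prop), ← lintegral_indicator hS]
    refine lintegral_congr fun y => ?_
    by_cases hy : y ∈ S
    · rw [Set.indicator_of_mem hy]
      refine lintegral_congr fun x => ?_
      rw [hH, Set.indicator_of_mem (show (y, x) ∈ S ×ˢ Set.univ from ⟨hy, trivial⟩)]
    · rw [Set.indicator_of_notMem hy]
      refine (lintegral_congr fun x => ?_).trans lintegral_zero
      rw [hH, Set.indicator_of_notMem (fun h => hy h.1)]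
      simp
  have hHL : MemLp H 2 (ν.prod μ) := by
    rw [memLp_two_iff_integrable_sq_norm hHm.aestronglyMeasurable]
    refine ⟨(hHm.norm.pow_const 2).aestronglyMeasurable, ?_⟩
    refine lt_of_le_of_lt ?_ (lt_of_le_of_lt hH2 (lt_top_iff_ne_top.2 htop))
    refine lintegral_mono fun z => ?_
    rw [← ofReal_norm, Real.norm_of_nonneg (by positivity)]
  have hH1 : Integrable H (ν.prod μ) := hHL.integrable (by norm_num)
  refine le_trans ?_ ((bessel_orth hUL q hq0 hUo hUq' hHL).trans hH2)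
  refine Finset.sum_le_sum fun i _ => ENNReal.ofReal_le_ofReal ?_
  refine div_le_div_of_nonneg_right ?_ (hq0 i).le
  -- the scalar product with the kernel
  obtain ⟨I, hI⟩ : ∃ I : ℝ, I = ∫ z, ∫ y in S, ‖g i (z, y)‖ ^ 2 ∂ν ∂ρ := ⟨_, rfl⟩
  have hIA : A i ≤ I := by
    rw [hI]
    exact hA i
  have hmain : ∫ p, H p * U i p ∂(ν.prod μ) = b i * (I : ℂ) := by
    obtain ⟨W, hW⟩ : ∃ W : (Y × X) × Z → ℂ, W = fun r => H r.1 * (f i (r.2, r.1.2) *
        (starRingEnd ℂ) (g i (r.2, r.1.1))) := ⟨_, rfl⟩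
    have b1 : Measurable (fun r : (Y × X) × Z => f i (r.2, r.1.2) *
        (starRingEnd ℂ) (g i (r.2, r.1.1))) := by
      have h2 : Measurable (fun q : (Y × X) × Z => f i (q.2, q.1.2)) := (hf i).comp (by fun_prop)
      have h3 : Measurable (fun q : (Y × X) × Z => (starRingEnd ℂ) (g i (q.2, q.1.1))) :=
        Complex.continuous_conj.measurable.comp ((hg i).comp (by fun_prop))
      exact h2.mul h3
    have b2 : ∀ r : (Y × X) × Z, ‖f i (r.2, r.1.2) * (starRingEnd ℂ) (g i (r.2, r.1.1))‖ ≤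
        M * M := by
      intro r
      rw [norm_mul, RCLike.norm_conj]
      exact mul_le_mul (hfM i _) (hgM i _) (norm_nonneg _) ((norm_nonneg _).trans (hfM i (r.2, r.1.2)))
    have hWi : Integrable W ((ν.prod μ).prod ρ) := by
      rw [hW]
      have h2 : Integrable (fun r : (Y × X) × Z => H r.1) ((ν.prod μ).prod ρ) := hH1.comp_fst ρ
      exact h2.mul_bdd (c := M * M) b1.aestronglyMeasurable (Filter.Eventually.of_forall b2)
    have e1 : ∀ p : Y × X, H p * U i p = ∫ z, W (p, z) ∂ρ := by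
      intro p
      rw [hU, hW]
      simp only
      unfold Uav
      rw [integral_const_mul]
    have e2 : ∀ z, ∫ p, W (p, z) ∂(ν.prod μ) = b i * ((∫ y in S, ‖g i (z, y)‖ ^ 2 ∂ν : ℝ) : ℂ) := by
      intro z
      have h3 : Integrable (fun p : Y × X => W (p, z)) (ν.prod μ) := by
        rw [hW]
        refine hH1.mul_bdd (c := M * M) ?_ (Filter.Eventually.of_forall fun p => b2 (p, z))
        exact (b1.comp (measurable_prodMk_right : Measurable fun p : Y × X => (p, z))).aestronglyMeasurable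
      rw [integral_prod _ h3]
      have h4 : ∀ᵐ y ∂ν, ∫ x, W ((y, x), z) ∂μ =
          S.indicator (fun y => b i * ((‖g i (z, y)‖ ^ 2 : ℝ) : ℂ)) y := by
        filter_upwards [hae] with y hyy
        by_cases hy : y ∈ S
        · rw [Set.indicator_of_mem hy]
          have h5 : ∀ x, W ((y, x), z) = (starRingEnd ℂ) (g i (z, y)) *
              (K (y, x) * f i (z, x)) := by
            intro x
            rw [hW, hH]
            simp only
            rw [Set.indicator_of_mem (show (y, x) ∈ S ×ˢ Set.univ from ⟨hy, trivial⟩)]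
            ring
          simp only [h5]
          rw [integral_const_mul, hop i z y hy (hyy hy)]
          have h6 : (starRingEnd ℂ) (g i (z, y)) * (b i * g i (z, y)) =
              b i * (g i (z, y) * (starRingEnd ℂ) (g i (z, y))) := by ring
          rw [h6, Complex.mul_conj, Complex.normSq_eq_norm_sq]
        · rw [Set.indicator_of_notMem hy]
          refine (integral_congr_ae (Filter.Eventually.of_forall fun x => ?_)).trans
            (integral_zero _ _)
          rw [hW, hH]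
          simp only
          rw [Set.indicator_of_notMem (fun h => hy h.1), zero_mul]
      rw [integral_congr_ae h4, integral_indicator hS, integral_const_mul, integral_complex_ofReal]
    calc ∫ p, H p * U i p ∂(ν.prod μ) = ∫ p, ∫ z, W (p, z) ∂ρ ∂(ν.prod μ) :=
          integral_congr_ae (Filter.Eventually.of_forall e1)
      _ = ∫ z, ∫ p, W (p, z) ∂(ν.prod μ) ∂ρ := integral_integral_swap hWi
      _ = ∫ z, b i * ((∫ y in S, ‖g i (z, y)‖ ^ 2 ∂ν : ℝ) : ℂ) ∂ρ :=
          integral_congr_ae (Filter.Eventually.of_forall e2)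
      _ = _ := by
          rw [integral_const_mul, integral_complex_ofReal, hI]
  rw [hmain, norm_mul, mul_pow, Complex.norm_real, Real.norm_eq_abs, sq_abs]
  exact mul_le_mul_of_nonneg_left (pow_le_pow_left₀ (hA0 i) hIA 2) (by positivity)

end aver

end Pool.Agent.H27.L1.H31.GK
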