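import Pool.Agent.H27.L1.H31.GK.BEA
import Pool.Agent.H27.L1.H23.GHK.TLP

/-!
Board ghk (MP_52e316_nt): the mass, the kernel and the operator in the form of the abstract inequality.
-/

set_option autoImplicit false

namespace Pool.Agent.H27.L1.H31.GK

open MeasureTheory Filter Pool.Agent.H27.L1.H34.GM Pool.Agent.H27.L1.H34.GZ Pool.Agent.H27.L1.H34.GU Pool.Agent.H27.L1.H34.GA
  Pool.Agent.H27.L1.H68.GHY

variable {m N : ℕ} [MeasurableSpace (VN m N)] [MeasurableSingletonClass (VN m N)] [NeZero N]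

theorem nu_restrict {D S : Set (V m)} (hSm : MeasurableSet S) (hSD : S ⊆ D) :
    (nuD m N D).restrict (S ×ˢ Set.univ) = nuD m N S := by
  rw [nu_eq, nu_eq, Measure.restrict_restrict (hSm.prod MeasurableSet.univ)]
  congr 1
  ext p
  simp only [Set.mem_inter_iff, Set.mem_prod, Set.mem_univ, and_true]
  exact ⟨fun h => h.1, fun h => ⟨h, hSD h⟩⟩

/-- the mass -/
theorem mass_le {s : ℝ} (hMSR : T_MSR) {D S : Set (V m)}
    (hfD : IsFiniteMeasure ((hm m).restrict D)) (hSm : MeasurableSet S) (hSD : S ⊆ D)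
    (hm1 : 1 ≤ m) (hSdet : ∀ z ∈ S, (mt z).det ≠ 0)
    (hBm : MeasurableSet (Bl m s)) (hBd : ∀ z ∈ Bl m s, (mt z).det ≠ 0)
    (hBf : hm m (Bl m s) < ⊤) {F : Mat m → VN m N → ℂ}
    (hF : ∀ x, ContinuousOn (fun g => F g x) {g | g.det ≠ 0}) {B : ℝ} (hB0 : 0 ≤ B)
    (hB : ∀ g x, g.det ≠ 0 → ‖F g x‖ ≤ B) {Φ : Mat m → ℂ} (hΦ : Continuous Φ) {t : ℝ}
    (ht : 0 ≤ t) (hL : L1 Φ 1 ≤ ENNReal.ofReal t) {κ : ℝ}
    (h : ∀ z ∈ Bl m s, ENNReal.ofReal κ ≤ ∑ x, ∫⁻ g in S, ENNReal.ofReal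
      (‖Rr Φ 1 (trn (mt z) F) (mt g) x‖ ^ 2) ∂(hm m)) :
    (hm m (Bl m s)).toReal * κ ≤ ∫ z, ∫ y in S ×ˢ Set.univ, ‖gz Φ F (z, y)‖ ^ 2 ∂(nuD m N D)
      ∂((hm m).restrict (Bl m s)) := by
  rw [nu_restrict hSm hSD]
  have hfS : IsFiniteMeasure ((hm m).restrict S) := by
    refine ⟨?_⟩
    have h1 := hfD.measure_univ_lt_top
    rw [Measure.restrict_apply_univ] at h1 ⊢
    exact (measure_mono hSD).trans_lt h1
  have hfn : IsFiniteMeasure (nuD m N S) := nu_fin hfS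
  obtain ⟨ρ, hρ⟩ : ∃ ρ : Measure (V m), ρ = (hm m).restrict (Bl m s) := ⟨_, rfl⟩
  have hfρ : IsFiniteMeasure ρ := by
    rw [hρ]
    exact ⟨by rw [Measure.restrict_apply_univ]; exact hBf⟩
  have hgm : Measurable (gz Φ F) := gz_meas hMSR hΦ hF
  have hgb : ∀ p, ‖gz Φ F p‖ ≤ t * B := fun p => gz_bd hB0 hB ht hL p
  have hi : Integrable (fun p => ‖gz Φ F p‖ ^ 2) (ρ.prod (nuD m N S)) := by
    refine Integrable.of_bound (hgm.norm.pow_const 2).aestronglyMeasurable ((t * B) ^ 2)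
      (Eventually.of_forall fun p => ?_)
    rw [Real.norm_of_nonneg (by positivity)]
    exact pow_le_pow_left₀ (norm_nonneg _) (hgb p) 2
  have hi2 := hi.integral_prod_left
  have hpt : ∀ z ∈ Bl m s, κ ≤ ∫ y, ‖gz Φ F (z, y)‖ ^ 2 ∂(nuD m N S) := by
    intro z hz
    have hgz : Measurable (fun y : V m × VN m N => gz Φ F (z, y)) :=
      hgm.comp measurable_prodMk_left
    have hiz : Integrable (fun y : V m × VN m N => ‖gz Φ F (z, y)‖ ^ 2) (nuD m N S) := by
      refine Integrable.of_bound (hgz.norm.pow_const 2).aestronglyMeasurable ((t * B) ^ 2)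
        (Eventually.of_forall fun p => ?_)
      rw [Real.norm_of_nonneg (by positivity)]
      exact pow_le_pow_left₀ (norm_nonneg _) (hgb _) 2
    have h0 : 0 ≤ ∫ y, ‖gz Φ F (z, y)‖ ^ 2 ∂(nuD m N S) := integral_nonneg fun y => by positivity
    refine (ENNReal.ofReal_le_ofReal_iff h0).1 ((h z hz).trans (le_of_eq ?_))
    rw [ofReal_integral_eq_lintegral_ofReal hiz (Eventually.of_forall fun x => by positivity)]
    have hmy : Measurable (fun y : V m × VN m N => ENNReal.ofReal (‖gz Φ F (z, y)‖ ^ 2)) := by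
      fun_prop
    rw [nu_lint hmy]
    refine Finset.sum_congr rfl fun x _ => setLIntegral_congr_fun hSm fun g hg => ?_
    rw [gz_of hm1 hMSR (hBd z hz) (hSdet g hg)]
  rw [← hρ]
  have h1 : (hm m (Bl m s)).toReal * κ = ∫ _z, κ ∂ρ := by
    rw [integral_const, smul_eq_mul, hρ]
    congr 1
    rw [measureReal_def, Measure.restrict_apply_univ]
  rw [h1]
  refine integral_mono_ae (integrable_const κ) hi2 ?_
  rw [hρ]
  filter_upwards [ae_restrict_mem hBm] with z hz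
  exact hpt z hz

/-- the operator -/
theorem hop_le (hVLM : T_VLM) (hOCD : T_OCD) (hMSR : T_MSR) {T : ℕ → Finset (ZM m)} {D : Set (V m)}
    (hS : SysZ m N T D) {F : Mat m → VN m N → ℂ} {lam : ℕ → ℂ} (hF : HecA m N T F lam)
    {χ : ℝ → ℝ} (hχ : Prof χ) {y : ℝ} {a : ℕ → ℂ} {d x0 : ℝ} (hy : 1 ≤ y) (ha : Coe y a)
    (hd : 0 < d) (hd2 : d ≤ 1 / 2) (hx0 : 0 < x0) {g : V m} (hg : (mt g).det ≠ 0) (x : VN m N)
    {H : V m × VN m N → ℂ} (hHm : Measurable H)
    (hH : ∀ h w, H (h, w) = Kc (bi m χ d) a d x0 (mt g) x (mt h) w)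
    (hfin : ∫⁻ p, ENNReal.ofReal (‖H p‖ ^ 2) ∂(nuD m N D) < ⊤) (z : V m) :
    ∫ p, H p * fz F (z, p) ∂(nuD m N D) = Bs m lam a y d x0 * gz (bi m χ d) F (z, (g, x)) := by
  have hsf : SFinite (hm m) := hm_sf
  have hm1 := hS.one_le
  have hfD : IsFiniteMeasure ((hm m).restrict D) := Pool.Agent.H27.L1.H90.GA.fin_D hVLM hm1 hS.dom
  have hfn : IsFiniteMeasure (nuD m N D) := nu_fin hfD
  have hDdet : ∀ z ∈ D, (mt z).det ≠ 0 := fun z hz => sh_det hm1 (hS.dom.shell z hz).1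
  by_cases hz : (mt z).det = 0
  · rw [gz_zero (Or.inl hz), mul_zero]
    refine (integral_congr_ae (Eventually.of_forall fun p => ?_)).trans (integral_zero _ _)
    show H p * fz F (z, (p.1, p.2)) = 0
    rw [fz_zero hz, mul_zero]
  · have hFz : HecA m N T (trn (mt z) F) lam := (Pool.Agent.H27.L1.H23.GHK.pf_TRN m N T F lam (mt z) hz).1 hF
    rw [gz_of hm1 hMSR hz hg, ← hOCD m N T D hS _ lam hFz χ hχ y a d x0 hy ha hd hd2 hx0 _ x hg]
    obtain ⟨B, hB⟩ := hF.bdd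
    have hB' : ∀ g x, g.det ≠ 0 → ‖F g x‖ ≤ max B 0 :=
      fun g x hg => (hB g x hg).trans (le_max_left _ _)
    have hfm : Measurable (fz F) := fz_meas hF.cont
    have hHL : MemLp H 2 (nuD m N D) := by
      rw [memLp_two_iff_integrable_sq_norm hHm.aestronglyMeasurable]
      refine ⟨(hHm.norm.pow_const 2).aestronglyMeasurable, ?_⟩
      refine lt_of_le_of_lt ?_ hfin
      refine lintegral_mono fun z => ?_
      rw [← ofReal_norm, Real.norm_of_nonneg (by positivity)]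
    have hH1 : Integrable H (nuD m N D) := hHL.integrable (by norm_num)
    have hI : Integrable (fun p => H p * fz F (z, p)) (nuD m N D) :=
      hH1.mul_bdd (c := max B 0) (hfm.comp measurable_prodMk_left).aestronglyMeasurable
        (Eventually.of_forall fun p => fz_bd (le_max_right _ _) hB' _)
    unfold nuD at hI ⊢
    rw [integral_prod _ hI]
    refine setIntegral_congr_fun hS.dom.meas fun h hh => ?_
    rw [integral_count]
    refine Finset.sum_congr rfl fun w _ => ?_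
    rw [hH, fz_of hz (hDdet h hh)]
    rfl

/-- orthogonality -/
theorem orth_z (hVLM : T_VLM) (hRTI : T_RTI) (hALU : T_ALU) {T : ℕ → Finset (ZM m)}
    {D : Set (V m)} (hS : SysZ m N T D) {F G : Mat m → VN m N → ℂ} {lam lam' : ℕ → ℂ}
    (hF : HecA m N T F lam) (hG : HecA m N T G lam')
    (h : ∀ w : Mat m, w.det ≠ 0 → ipz D F G w = 0) (z z' : V m) :
    ∫ x, fz F (z, x) * (starRingEnd ℂ) (fz G (z', x)) ∂(nuD m N D) = 0 := by
  have hm1 := hS.one_le
  have hfD : IsFiniteMeasure ((hm m).restrict D) := Pool.Agent.H27.L1.H90.GA.fin_D hVLM hm1 hS.dom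
  have hfn : IsFiniteMeasure (nuD m N D) := nu_fin hfD
  have hDdet : ∀ z ∈ D, (mt z).det ≠ 0 := fun z hz => sh_det hm1 (hS.dom.shell z hz).1
  by_cases hz : (mt z).det = 0
  · refine (integral_congr_ae (Eventually.of_forall fun p => ?_)).trans (integral_zero _ _)
    show fz F (z, (p.1, p.2)) * _ = 0
    rw [fz_zero hz, zero_mul]
  by_cases hz' : (mt z').det = 0
  · refine (integral_congr_ae (Eventually.of_forall fun p => ?_)).trans (integral_zero _ _)
    show _ * (starRingEnd ℂ) (fz G (z', (p.1, p.2))) = 0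
    rw [fz_zero hz', map_zero, mul_zero]
  obtain ⟨B, hB⟩ := hF.bdd
  have hB' : ∀ g x, g.det ≠ 0 → ‖F g x‖ ≤ max B 0 :=
    fun g x hg => (hB g x hg).trans (le_max_left _ _)
  obtain ⟨B2, hB2⟩ := hG.bdd
  have hB2' : ∀ g x, g.det ≠ 0 → ‖G g x‖ ≤ max B2 0 :=
    fun g x hg => (hB2 g x hg).trans (le_max_left _ _)
  have hi : Integrable (fun x => fz F (z, x) * (starRingEnd ℂ) (fz G (z', x))) (nuD m N D) := by
    refine int_bdd (M := max B 0 * max B2 0) ?_ ?_
    · exact ((fz_meas hF.cont).comp measurable_prodMk_left).mul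
        (Complex.continuous_conj.measurable.comp ((fz_meas hG.cont).comp measurable_prodMk_left))
    · intro x
      rw [norm_mul, RCLike.norm_conj]
      exact mul_le_mul (fz_bd (le_max_right _ _) hB' _) (fz_bd (le_max_right _ _) hB2' _)
        (norm_nonneg _) (le_max_right _ _)
  rw [nu_int hi]
  have h2 := Pool.Agent.H27.L1.H23.GHK.pf_TRI hVLM hRTI hALU m N T D hS F G lam lam' hF hG _ _ hz hz'
  rw [h _ (by
    rw [Matrix.det_mul]
    exact mul_ne_zero (inv_det_ne hz') hz)] at h2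
  refine Eq.trans ?_ h2
  refine Finset.sum_congr rfl fun x _ => setIntegral_congr_fun hS.dom.meas fun g hg => ?_
  rw [fz_of hz (hDdet g hg), fz_of hz' (hDdet g hg)]

end Pool.Agent.H27.L1.H31.GK
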