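import Pool.Agent.H27.L1.H31.GK.BEB
import Pool.Agent.H27.L1.H16.GZ.Targets4

/-!
Board ghk (MP_52e316_nt): the inequality of Bessel with the weights `W i ≤ 1 / Hr` (assembly).
-/

set_option autoImplicit false

namespace Pool.Agent.H27.L1.H31.GK

open MeasureTheory Filter Pool.Agent.H27.L1.H34.GM Pool.Agent.H27.L1.H34.GZ Pool.Agent.H27.L1.H34.GU Pool.Agent.H27.L1.H34.GA
  Pool.Agent.H27.L1.H68.GHY



theorem pf_BER (hBIA : T_BIA) (hTBA : T_TBA) (hKCD : T_KCD) (hKMD : T_KMD) (hOCD : T_OCD)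
    (hMSD : T_MSD) (hRRN : T_RRN) (hMSR : T_MSR) (hVLM : T_VLM) (hRTI : T_RTI) (hALU : T_ALU)
    (hDYM : T_DYM) (hGHR : T_GHR) (hBLR : T_BLR) (hQIR : T_QIR) : T_BER := by
  classical
  intro m r χ hm1 hr0 hr1 hχ
  have hm0 : (0 : ℝ) < m := by exact_mod_cast hm1
  have hm1' : (1 : ℝ) ≤ m := by exact_mod_cast hm1
  obtain ⟨cM, CM, AM, hcM, hCM, hM⟩ := hMSD m χ hm1 hχ
  obtain ⟨CT, hCT, hT⟩ := Pool.Agent.H27.L1.H23.GHK.tlp hVLM hRTI hALU m hm1
  obtain ⟨ct, Ct, At, hct, -, hTb⟩ := hTBA m χ hm1 hχ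
  obtain ⟨CB, -, hB⟩ := hBIA m χ hm1 hχ
  -- the small ball
  obtain ⟨s, hs⟩ : ∃ s : ℝ, s = r / (4 * m) := ⟨_, rfl⟩
  have hs0 : 0 < s := by rw [hs]; positivity
  have hsr : s ≤ r := by
    rw [hs, div_le_iff₀ (by positivity)]
    nlinarith
  have hs1 : s ≤ 1 / (2 * m) := hsr.trans hr1
  obtain ⟨hBm, hBd, hBf, hBp, -⟩ := hBLR m hm1 s hs0 hs1
  have hs4 : ∀ z ∈ Bl m s, 4 * m * sz (mt z - 1) ≤ 1 := by
    intro z hz
    have h1 : sz (mt z - 1) ≤ s := hz
    have h2 : 4 * m * sz (mt z - 1) ≤ 4 * m * s := by gcongr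
    have h3 : 4 * m * s = r := by rw [hs]; field_simp
    have h4 : r ≤ 1 := by
      refine hr1.trans ?_
      rw [div_le_one (by positivity)]
      linarith
    linarith
  obtain ⟨v, hv⟩ : ∃ v : ℝ, v = (hm m (Bl m s)).toReal := ⟨_, rfl⟩
  have hv0 : 0 < v := by
    rw [hv]
    exact ENNReal.toReal_pos hBp.ne' hBf.ne
  refine ⟨min (cM / (2 * CT)) (v * cM ^ 2), CM, AM, ?_, hCM, ?_⟩
  · have h1 : 0 < CT := by linarith
    exact lt_min (by positivity) (by positivity)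
  intro N _ T D hS ι _ _ F lam P W hF hSep hP hW0 hW1 δ hδ hδ2 hδc Y hY y a x0 hy ha hx0
  obtain ⟨htb, -, -, hL⟩ := hTb δ hδ hδ2
  have hΦ : Tg m (bi m χ δ) := (hB δ hδ hδ2).1.toTg
  obtain ⟨t, ht⟩ : ∃ t : ℝ, t = tb m χ δ := ⟨_, rfl⟩
  rw [← ht] at htb hL ⊢
  have ht0 : 0 < t := lt_of_lt_of_le (by positivity) htb
  obtain ⟨hC1, -⟩ := hKCD m N χ hm1 hS.two_le hχ y a δ x0 hy ha hδ hδ2 hx0
  have hδ' : δ * (1 + CT * (1 + P)) ≤ cM := by
    have h1 : δ * (1 + P) ≤ cM / (2 * CT) := hδc.trans (min_le_left _ _)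
    rw [le_div_iff₀ (by linarith)] at h1
    have h2 : 1 + CT * (1 + P) ≤ 2 * CT * (1 + P) := by nlinarith
    have h3 : δ * (1 + CT * (1 + P)) ≤ δ * (2 * CT * (1 + P)) :=
      mul_le_mul_of_nonneg_left h2 hδ.le
    nlinarith
  have hDm := hS.dom.meas
  have hDdet : ∀ z ∈ D, (mt z).det ≠ 0 := fun z hz => sh_det hm1 (hS.dom.shell z hz).1
  have hfD : IsFiniteMeasure ((hm m).restrict D) := Pool.Agent.H27.L1.H90.GA.fin_D hVLM hm1 hS.dom
  have hsf : SFinite (hm m) := hm_sf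
  let _ms : MeasurableSpace (VN m N) := ⊤
  have _hs : MeasurableSingletonClass (VN m N) := ⟨fun _ => trivial⟩
  have hfn : IsFiniteMeasure (nuD m N D) := nu_fin hfD
  have hfρ : IsFiniteMeasure ((hm m).restrict (Bl m s)) :=
    ⟨by rw [Measure.restrict_apply_univ]; exact hBf⟩
  obtain ⟨S, hSd⟩ : ∃ S : Set (V m), S = DY D Y := ⟨_, rfl⟩
  have hSm : MeasurableSet S := by rw [hSd]; exact hDYM m D hS.dom Y
  have hSD : S ⊆ D := by rw [hSd]; exact fun z hz => hz.1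
  rw [← hSd]
  -- the kernel
  obtain ⟨K, hK⟩ : ∃ K : (V m × VN m N) × (V m × VN m N) → ℂ, ∀ g x h w, K ((g, x), (h, w)) =
      Kc (bi m χ δ) a δ x0 (mt g) x (mt h) w := ⟨fun p =>
        Kc (bi m χ δ) a δ x0 (mt p.1.1) p.1.2 (mt p.2.1) p.2.2, fun _ _ _ _ => rfl⟩
  have hKm : Measurable K := by
    have h1 : Measurable (fun q : (V m × V m) × (VN m N × VN m N) =>
        K ((q.1.1, q.2.1), (q.1.2, q.2.2))) := by
      refine measurable_from_prod_countable_left fun w => ?_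
      have h2 : (fun q : V m × V m => K ((q.1, w.1), (q.2, w.2))) = fun q : V m × V m =>
          Kc (bi m χ δ) a δ x0 (mt q.1) w.1 (mt q.2) w.2 := funext fun q => hK _ _ _ _
      rw [h2]
      exact (hKMD m N δ y w.1 w.2 hm1).2 _ hΦ a x0
    have h2 : Measurable (fun p : (V m × VN m N) × (V m × VN m N) =>
        (((p.1.1, p.2.1), (p.1.2, p.2.2)) : (V m × V m) × (VN m N × VN m N))) := by fun_prop
    exact h1.comp h2
  -- bounds of the forms
  have hFB : ∃ B : ℝ, 0 ≤ B ∧ ∀ i g x, g.det ≠ 0 → ‖F i g x‖ ≤ B := by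
    choose b hb using fun i => (hF i).1.toHecA.bdd
    refine ⟨∑ i, |b i|, Finset.sum_nonneg fun i _ => abs_nonneg _, fun i g x hg => ?_⟩
    refine (hb i g x hg).trans ((le_abs_self _).trans ?_)
    exact Finset.single_le_sum (f := fun i => |b i|) (fun j _ => abs_nonneg _) (Finset.mem_univ i)
  obtain ⟨B, hB0, hFB⟩ := hFB
  have hfb : ∀ i p, ‖fz (F i) p‖ ≤ max B (t * B) := fun i p =>
    (fz_bd hB0 (hFB i) p).trans (le_max_left _ _)
  have hgb : ∀ i p, ‖gz (bi m χ δ) (F i) p‖ ≤ max B (t * B) := fun i p =>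
    (gz_bd hB0 (hFB i) ht0.le hL.le p).trans (le_max_right _ _)
  -- the numbers q
  obtain ⟨q, hq⟩ : ∃ q : ι → ℝ, ∀ i, q i = if W i = 0 then t ^ 2 * (v * Hr r D (F i)) + 1 else
      t ^ 2 * v / W i := ⟨_, fun _ => rfl⟩
  have hH0 : ∀ i, 0 ≤ Hr r D (F i) := fun i => integral_nonneg fun z => by positivity
  have hq0 : ∀ i, 0 < q i := by
    intro i
    rw [hq]
    have h1 := hH0 i
    by_cases hw : W i = 0
    · rw [if_pos hw]
      positivity
    · rw [if_neg hw]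
      have h2 : 0 < W i := lt_of_le_of_ne (hW0 i) (Ne.symm hw)
      positivity
  have hq1 : ∀ i, t ^ 2 * (v * Hr r D (F i)) ≤ q i := by
    intro i
    rw [hq]
    by_cases hw : W i = 0
    · rw [if_pos hw]
      linarith
    · rw [if_neg hw]
      have h2 : 0 < W i := lt_of_le_of_ne (hW0 i) (Ne.symm hw)
      rw [le_div_iff₀ h2]
      have h3 := hW1 i
      have h4 : t ^ 2 * (v * Hr r D (F i)) * W i = t ^ 2 * v * (W i * Hr r D (F i)) := by ring
      rw [h4]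
      exact mul_le_of_le_one_right (by positivity) h3
  have hmain := lsk_abs2 (nuD m N D) (nuD m N D) ((hm m).restrict (Bl m s))
    (S := S ×ˢ (Set.univ : Set (VN m N))) (hSm.prod MeasurableSet.univ) hKm
    (E := ∫⁻ g in S, Ed N D δ y x0 (mt g) ∂(hm m)) ?hE
    (f := fun i => fz (F i)) (g := fun i => gz (bi m χ δ) (F i))
    (fun i => fz_meas (hF i).1.toHecA.cont) (fun i => gz_meas hMSR hΦ.cont (hF i).1.toHecA.cont)
    hfb hgb (b := fun i => Bs m (lam i) a y δ x0) ?hop ?horth hq0 ?hUq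
    (A := fun _ => v * (cM * t ^ 2)) (fun _ => by positivity) ?hA
  case hE =>
    rw [nu_restrict hSm hSD]
    have hKm2 : Measurable (fun p => ENNReal.ofReal (‖K p‖ ^ 2)) := by fun_prop
    have hm2 : Measurable (fun y' => ∫⁻ x, ENNReal.ofReal (‖K (y', x)‖ ^ 2) ∂(nuD m N D)) :=
      hKm2.lintegral_prod_right'
    rw [nu_lint hm2, ← lintegral_finsetSum]
    · refine lintegral_mono fun g => ?_
      unfold Ed
      refine Finset.sum_le_sum fun x _ => ?_
      have hKg : Measurable (fun p : V m × VN m N => ENNReal.ofReal (‖K ((g, x), p)‖ ^ 2)) :=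
        hKm2.comp measurable_prodMk_left
      rw [nu_lint hKg, ← lintegral_finsetSum]
      · refine lintegral_mono fun h => ?_
        refine Finset.sum_le_sum fun w _ => ?_
        rw [ENNReal.ofReal_pow (norm_nonneg _), hK]
        exact pow_le_pow_left' (hC1 _ _ _ _) 2
      · intro w _
        exact hKg.comp measurable_prodMk_right
    · intro x _
      exact hm2.comp measurable_prodMk_right
  case hop =>
    intro i z y' hy' hfin
    obtain ⟨g, x⟩ := y'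
    exact hop_le hVLM hOCD hMSR hS (hF i).1.toHecA hχ hy ha hδ hδ2 hx0 (hDdet g (hSD hy'.1)) x
      (H := fun p => K ((g, x), p)) (hKm.comp measurable_prodMk_left) (fun h w => hK _ _ _ _) hfin z
  case horth =>
    intro i j hij z z'
    exact orth_z hVLM hRTI hALU hS (hF i).1.toHecA (hF j).1.toHecA (hSep i j hij) z z'
  case hUq =>
    intro i
    refine (uav_rr hMSR hRRN hGHR hS hs0 hs1 hBm hBd hBf (hF i).1.toHecA hΦ).trans ?_
    have h1 := uav_ff hVLM hRTI hALU hQIR hS hr0 hr1 (hs ▸ hBm) (hs ▸ hBd) (hs ▸ hBf)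
      (hF i).1.toHecA
    rw [← hs, ← hv] at h1
    rw [hL]
    refine (mul_le_mul' le_rfl h1).trans ?_
    rw [← ENNReal.ofReal_pow ht0.le, ← ENNReal.ofReal_mul (by positivity)]
    exact ENNReal.ofReal_le_ofReal (hq1 i)
  case hA =>
    intro i
    rw [hv]
    refine mass_le hMSR hfD hSm hSD hm1 (fun z hz => hDdet z (hSD hz)) hBm hBd hBf
      (hF i).1.toHecA.cont hB0 (hFB i) hΦ.cont ht0.le hL.le fun z hz => ?_
    obtain ⟨hn, hl⟩ := hT N T D hS (F i) (lam i) (hF i).1.toHecA (hF i).2.2 P hP (hF i).2.1 (mt z)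
      (hs4 z hz)
    have h1 := hM N T D hS (trn (mt z) (F i)) (lam i)
      ((Pool.Agent.H27.L1.H23.GHK.pf_TRN m N T (F i) (lam i) (mt z) (hBd z hz)).2 (hF i).1) hn
      (CT * (1 + P)) δ hl (by positivity) hδ hδ2 hδ' Y hY
    rw [← ht, ← hSd] at h1
    exact h1
  refine le_trans ?_ hmain
  rw [Finset.mul_sum]
  refine Finset.sum_le_sum fun i _ => ?_
  have hc : 0 ≤ min (cM / (2 * CT)) (v * cM ^ 2) := by
    have h1 : 0 < CT := by linarith
    exact (lt_min (by positivity) (by positivity)).le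
  rw [← ENNReal.ofReal_mul (hW0 i), ← ENNReal.ofReal_mul (by positivity)]
  refine ENNReal.ofReal_le_ofReal ?_
  by_cases hw : W i = 0
  · rw [hw, zero_mul, mul_zero]
    have := hq0 i
    positivity
  · have h2 : 0 < W i := lt_of_le_of_ne (hW0 i) (Ne.symm hw)
    rw [hq, if_neg hw]
    have h3 : ‖Bs m (lam i) a y δ x0‖ ^ 2 * (v * (cM * t ^ 2)) ^ 2 / (t ^ 2 * v / W i) =
        (v * cM ^ 2) * t ^ 2 * (W i * ‖Bs m (lam i) a y δ x0‖ ^ 2) := by
      field_simp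
    rw [h3]
    have h4 : min (cM / (2 * CT)) (v * cM ^ 2) ≤ v * cM ^ 2 := min_le_right _ _
    gcongr

end Pool.Agent.H27.L1.H31.GK
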