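import Mathlib

/-!
Board ghk (MP_52e316_nt): elementary inequalities for the density of Plancherel's measure.
-/

set_option autoImplicit false

namespace Pool.Agent.H27.L1.H31.M3

/-- the density -/
noncomputable def pl {m : ℕ} (mu : Fin m → ℂ) : ℝ :=
  ∏ i, ∏ j, (1 + max 0 ((mu i).im - (mu j).im))

theorem fac_ge {m : ℕ} (mu : Fin m → ℂ) (i j : Fin m) :
    1 ≤ 1 + max 0 ((mu i).im - (mu j).im) := le_add_of_nonneg_right (le_max_left _ _)

/-- one factor of a product of factors which are at least one -/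
theorem single_le {m : ℕ} (g : Fin m → ℝ) (hg : ∀ i, 1 ≤ g i) (i0 : Fin m) : g i0 ≤ ∏ i, g i := by
  have h1 : ∏ i, (if i = i0 then g i0 else 1) = g i0 := by
    rw [Finset.prod_ite_eq']
    simp
  rw [← h1]
  refine Finset.prod_le_prod (fun i _ => ?_) (fun i _ => ?_)
  · split_ifs
    · linarith [hg i0]
    · norm_num
  · split_ifs with h
    · rw [h]
    · exact hg i

theorem row_ge {m : ℕ} (g : Fin m → ℝ) (hg : ∀ i, 1 ≤ g i) : 1 ≤ ∏ i, g i := by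
  have h1 : ∏ _i : Fin m, (1 : ℝ) = 1 := Finset.prod_const_one
  rw [← h1]
  exact Finset.prod_le_prod (fun i _ => zero_le_one) (fun i _ => hg i)

theorem pl_ge {m : ℕ} (mu : Fin m → ℂ) : 1 ≤ pl mu :=
  row_ge _ fun i => row_ge _ fun j => fac_ge mu i j

theorem pl_gap {m : ℕ} (mu : Fin m → ℂ) (i j : Fin m) : 1 + |(mu i).im - (mu j).im| ≤ pl mu := by
  have h1 : ∀ i j : Fin m, 1 + max 0 ((mu i).im - (mu j).im) ≤ pl mu := fun i j =>
    (single_le _ (fun j => fac_ge mu i j) j).trans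
      (single_le (fun i => ∏ j, (1 + max 0 ((mu i).im - (mu j).im)))
        (fun i => row_ge _ fun j => fac_ge mu i j) i)
  rcases le_total 0 ((mu i).im - (mu j).im) with h | h
  · rw [abs_of_nonneg h]
    refine le_trans ?_ (h1 i j)
    rw [max_eq_right h]
  · rw [abs_of_nonpos h]
    refine le_trans ?_ (h1 j i)
    rw [max_eq_right (by linarith)]
    linarith

theorem fac_mul (x y : ℝ) : (1 + max 0 (x - y)) * (1 + max 0 (y - x)) = 1 + |x - y| := by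
  rcases le_total x y with h | h
  · rw [max_eq_left (by linarith), max_eq_right (by linarith), abs_of_nonpos (by linarith)]
    ring
  · rw [max_eq_right (by linarith), max_eq_left (by linarith), abs_of_nonneg (by linarith)]
    ring

theorem pl_sq {m : ℕ} (mu : Fin m → ℂ) :
    pl mu * pl mu = ∏ i, ∏ j, (1 + |(mu i).im - (mu j).im|) := by
  have h1 : pl mu = ∏ i, ∏ j, (1 + max 0 ((mu j).im - (mu i).im)) := by
    unfold pl
    exact Finset.prod_comm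
  calc pl mu * pl mu = (∏ i, ∏ j, (1 + max 0 ((mu i).im - (mu j).im))) *
        (∏ i, ∏ j, (1 + max 0 ((mu j).im - (mu i).im))) := by rw [← h1]; rfl
    _ = _ := by
      rw [← Finset.prod_mul_distrib]
      refine Finset.prod_congr rfl fun i _ => ?_
      rw [← Finset.prod_mul_distrib]
      exact Finset.prod_congr rfl fun j _ => fac_mul _ _

theorem gap_le {m : ℕ} (mu : Fin m → ℂ) {i j : Fin m} (hij : i ≠ j) :
    1 + |(mu i).im - (mu j).im| ≤ 1 + ∑ j, ‖mu j‖ := by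
  have h1 : |(mu i).im - (mu j).im| ≤ ‖mu i‖ + ‖mu j‖ :=
    (abs_sub _ _).trans (add_le_add (Complex.abs_im_le_norm _) (Complex.abs_im_le_norm _))
  have h2 : ‖mu i‖ + ‖mu j‖ ≤ ∑ j, ‖mu j‖ := by
    have h3 : ∑ k ∈ ({i, j} : Finset (Fin m)), ‖mu k‖ = ‖mu i‖ + ‖mu j‖ := Finset.sum_pair hij
    rw [← h3]
    exact Finset.sum_le_sum_of_subset_of_nonneg (Finset.subset_univ _)
      (fun k _ _ => norm_nonneg _)
  linarith

theorem pl_le {m : ℕ} (mu : Fin m → ℂ) :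
    pl mu ≤ (1 + ∑ j, ‖mu j‖) ^ ((m : ℝ) * (m - 1) / 2) := by
  obtain ⟨P, hP⟩ : ∃ P : ℝ, P = 1 + ∑ j, ‖mu j‖ := ⟨_, rfl⟩
  have hP1 : 1 ≤ P := by
    rw [hP]
    exact le_add_of_nonneg_right (Finset.sum_nonneg fun j _ => norm_nonneg _)
  have hP0 : 0 < P := by linarith
  rcases Nat.eq_zero_or_pos m with hm | hm
  · subst hm
    simp [pl]
  have h1 : pl mu * pl mu ≤ P ^ (m * (m - 1)) := by
    rw [pl_sq]
    calc ∏ i, ∏ j, (1 + |(mu i).im - (mu j).im|) ≤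
        ∏ _i : Fin m, P ^ (m - 1) := by
          refine Finset.prod_le_prod (fun i _ => Finset.prod_nonneg fun j _ => by positivity)
            (fun i _ => ?_)
          calc ∏ j, (1 + |(mu i).im - (mu j).im|) ≤ ∏ j, (if j = i then 1 else P) := by
                refine Finset.prod_le_prod (fun j _ => by positivity) (fun j _ => ?_)
                split_ifs with h
                · rw [h, sub_self, abs_zero, add_zero]
                · rw [hP]
                  exact gap_le mu fun h2 => h h2.symm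
            _ = P ^ (m - 1) := by
                rw [Finset.prod_ite]
                rw [Finset.prod_const_one, one_mul, Finset.prod_const]
                congr 1
                rw [Finset.filter_not, Finset.filter_eq', if_pos (Finset.mem_univ i),
                  Finset.card_sdiff_of_subset (Finset.subset_univ _), Finset.card_univ,
                  Fintype.card_fin, Finset.card_singleton]
      _ = P ^ (m * (m - 1)) := by
          rw [Finset.prod_const, Finset.card_univ, Fintype.card_fin, ← pow_mul, mul_comm (m - 1)]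
  have h2 : (P ^ ((m : ℝ) * (m - 1) / 2)) * (P ^ ((m : ℝ) * (m - 1) / 2)) = P ^ (m * (m - 1)) := by
    rw [← Real.rpow_add hP0, ← Real.rpow_natCast]
    congr 1
    push_cast [Nat.cast_sub hm]
    ring
  rw [← hP]
  have h3 : 0 ≤ P ^ ((m : ℝ) * (m - 1) / 2) := by positivity
  have h4 := pl_ge mu
  nlinarith [abs_le_of_sq_le_sq' (show pl mu ^ 2 ≤ (P ^ ((m : ℝ) * (m - 1) / 2)) ^ 2 by nlinarith) h3]

theorem core {P p A B C : ℝ} (hP : 0 ≤ P) (hp : 1 ≤ p) (hA : P ≤ 3 * A) (hB : P ≤ 6 * B)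
    (hC : 1 ≤ C) (h : P ≤ 30 * (p * C)) : P ^ 9 ≤ 10 ^ 7 * (p * (A * B * C) ^ 4) := by
  have hA0 : 0 ≤ A := by linarith
  have hB0 : 0 ≤ B := by linarith
  have h1 : P ^ 4 ≤ (3 * A) ^ 4 := pow_le_pow_left₀ hP hA 4
  have h2 : P ^ 4 ≤ (6 * B) ^ 4 := pow_le_pow_left₀ hP hB 4
  have h3 : C ≤ C ^ 4 := le_self_pow₀ hC (by norm_num)
  calc P ^ 9 = P ^ 4 * P ^ 4 * P := by ring
    _ ≤ (3 * A) ^ 4 * (6 * B) ^ 4 * (30 * (p * C ^ 4)) := by
        have h4 : P ≤ 30 * (p * C ^ 4) := h.trans (by gcongr)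
        gcongr
    _ = 3149280 * (p * (A * B * C) ^ 4) := by ring
    _ ≤ 10 ^ 7 * (p * (A * B * C) ^ 4) := by
        have h5 : 0 ≤ p * (A * B * C) ^ 4 := by positivity
        nlinarith

theorem m3b (mu : Fin 3 → ℂ) (a b c : Fin 3) (h0 : mu a + mu b + mu c = 0)
    (hre : ∀ j, |(mu j).re| ≤ 9) (hab : ‖mu b‖ ≤ ‖mu a‖) (hbc : ‖mu c‖ ≤ ‖mu b‖) :
    (1 + (‖mu a‖ + ‖mu b‖ + ‖mu c‖)) ^ 9 ≤
      10 ^ 7 * (pl mu * ((1 + ‖mu a‖) * (1 + ‖mu b‖) * (1 + ‖mu c‖)) ^ 4) := by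
  have hc := norm_nonneg (mu c)
  have hb := norm_nonneg (mu b)
  have ha := norm_nonneg (mu a)
  have hp := pl_ge mu
  have h1 : ‖mu a‖ ≤ ‖mu b‖ + ‖mu c‖ := by
    have h2 : mu a = -(mu b + mu c) := by linear_combination h0
    rw [h2, norm_neg]
    exact norm_add_le _ _
  have h3 : ‖mu a‖ ≤ |(mu a).re| + |(mu a).im| := Complex.norm_le_abs_re_add_abs_im _
  have h4 : |(mu c).im| ≤ ‖mu c‖ := Complex.abs_im_le_norm _
  have h5 := pl_gap mu a c
  have h6 : |(mu a).im| - |(mu c).im| ≤ |(mu a).im - (mu c).im| := abs_sub_abs_le_abs_sub _ _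
  have h7 := hre a
  have h8 : 1 + ‖mu a‖ ≤ 8 + pl mu + (1 + ‖mu c‖) := by linarith
  have h9 : 8 + pl mu + (1 + ‖mu c‖) ≤ 10 * (pl mu * (1 + ‖mu c‖)) := by nlinarith
  refine core (by positivity) hp (by linarith) (by linarith) (by linarith) (by linarith)

theorem m3c (mu : Fin 3 → ℂ) (a b c : Fin 3) (h0 : mu a + mu b + mu c = 0)
    (hre : ∀ j, |(mu j).re| ≤ 9) (hab : ‖mu b‖ ≤ ‖mu a‖) (hbc : ‖mu c‖ ≤ ‖mu b‖)
    (hs : ‖mu 0‖ + ‖mu 1‖ + ‖mu 2‖ = ‖mu a‖ + ‖mu b‖ + ‖mu c‖)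
    (hp : (1 + ‖mu 0‖) * (1 + ‖mu 1‖) * (1 + ‖mu 2‖) =
      (1 + ‖mu a‖) * (1 + ‖mu b‖) * (1 + ‖mu c‖)) :
    (1 + (‖mu 0‖ + ‖mu 1‖ + ‖mu 2‖)) ^ 9 ≤
      10 ^ 7 * (pl mu * ((1 + ‖mu 0‖) * (1 + ‖mu 1‖) * (1 + ‖mu 2‖)) ^ 4) := by
  rw [hs, hp]
  exact m3b mu a b c h0 hre hab hbc

/-- three parameters -/
theorem m3a (mu : Fin 3 → ℂ) (h0 : ∑ j, mu j = 0) (hre : ∀ j, |(mu j).re| ≤ 9) :
    (1 + ∑ j, ‖mu j‖) ^ 9 ≤ 10 ^ 7 * (pl mu * (∏ j, (1 + ‖mu j‖)) ^ 4) := by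
  rw [Fin.sum_univ_three] at h0 ⊢
  rw [Fin.prod_univ_three]
  rcases le_total ‖mu 0‖ ‖mu 1‖ with h1 | h1
  · rcases le_total ‖mu 1‖ ‖mu 2‖ with h2 | h2
    · exact m3c mu 2 1 0 (by linear_combination h0) hre h2 h1 (by ring) (by ring)
    · rcases le_total ‖mu 0‖ ‖mu 2‖ with h3 | h3
      · exact m3c mu 1 2 0 (by linear_combination h0) hre h2 h3 (by ring) (by ring)
      · exact m3c mu 1 0 2 (by linear_combination h0) hre h1 h3 (by ring) (by ring)
  · rcases le_total ‖mu 1‖ ‖mu 2‖ with h2 | h2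
    · rcases le_total ‖mu 0‖ ‖mu 2‖ with h3 | h3
      · exact m3c mu 2 0 1 (by linear_combination h0) hre h3 h1 (by ring) (by ring)
      · exact m3c mu 0 2 1 (by linear_combination h0) hre h3 h2 (by ring) (by ring)
    · exact m3c mu 0 1 2 (by linear_combination h0) hre h1 h2 (by ring) (by ring)

/-- the size in the ordering is at most the product of the local conductors -/
theorem m3 (mu : Fin 3 → ℂ) (h0 : ∑ j, mu j = 0) (hre : ∀ j, |(mu j).re| ≤ 9) :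
    ((1 + ∑ j, ‖mu j‖) ^ ((3 : ℝ) ^ 2) / pl mu) ^ (1 / ((3 : ℝ) + 1)) ≤
      60 * ∏ j, (1 + ‖mu j‖) := by
  have hp : 0 < pl mu := lt_of_lt_of_le one_pos (pl_ge mu)
  have hP0 : 0 ≤ ∑ j, ‖mu j‖ := Finset.sum_nonneg fun j _ => norm_nonneg _
  have hA0 : 0 ≤ ∏ j, (1 + ‖mu j‖) := Finset.prod_nonneg fun j _ => by positivity
  have h1 : (1 + ∑ j, ‖mu j‖) ^ ((3 : ℝ) ^ 2) / pl mu ≤ (60 * ∏ j, (1 + ‖mu j‖)) ^ 4 := by
    have e1 : (1 + ∑ j, ‖mu j‖) ^ ((3 : ℝ) ^ 2) = (1 + ∑ j, ‖mu j‖) ^ 9 := by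
      rw [← Real.rpow_natCast]
      norm_num
    rw [e1, div_le_iff₀ hp, mul_pow]
    refine (m3a mu h0 hre).trans ?_
    have h2 : 0 ≤ (∏ j, (1 + ‖mu j‖)) ^ 4 * pl mu := by positivity
    nlinarith
  have h2 : ((60 * ∏ j, (1 + ‖mu j‖)) ^ 4) ^ (1 / ((3 : ℝ) + 1)) = 60 * ∏ j, (1 + ‖mu j‖) := by
    rw [show (1 / ((3 : ℝ) + 1)) = ((4 : ℕ) : ℝ)⁻¹ by norm_num]
    exact Real.pow_rpow_inv_natCast (by positivity) (by norm_num)
  rw [← h2]
  exact Real.rpow_le_rpow (by positivity) h1 (by norm_num)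

end Pool.Agent.H27.L1.H31.M3
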