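import Pool.Agent.H27.L1.H31.GK.M3

/-!
Board ghk (MP_52e316_nt): the ordering by the analytic conductor for three parameters.
-/

set_option autoImplicit false

namespace Pool.Agent.H27.L1.H31.M3

/-- polynomial form -/
theorem m3p (mu : Fin 3 → ℂ) (h0 : ∑ j, mu j = 0) (hre : ∀ j, |(mu j).re| ≤ 9) (N : ℕ) (X : ℝ)
    (h : (N : ℝ) * ∏ j, (1 + ‖mu j‖) ≤ X) :
    (N : ℝ) ^ (3 + 1) * (1 + ∑ j, ‖mu j‖) ^ (3 ^ 2) ≤ pl mu * (60 * X) ^ (3 + 1) := by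
  have hp : 0 < pl mu := lt_of_lt_of_le one_pos (pl_ge mu)
  have hA0 : 0 ≤ ∏ j, (1 + ‖mu j‖) := Finset.prod_nonneg fun j _ => by positivity
  have h1 := m3a mu h0 hre
  have h2 : ((N : ℝ) * ∏ j, (1 + ‖mu j‖)) ^ 4 ≤ X ^ 4 := pow_le_pow_left₀ (by positivity) h 4
  calc (N : ℝ) ^ (3 + 1) * (1 + ∑ j, ‖mu j‖) ^ (3 ^ 2) ≤
      (N : ℝ) ^ 4 * (10 ^ 7 * (pl mu * (∏ j, (1 + ‖mu j‖)) ^ 4)) :=
        mul_le_mul_of_nonneg_left h1 (by positivity)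
    _ = 10 ^ 7 * (pl mu * ((N : ℝ) * ∏ j, (1 + ‖mu j‖)) ^ 4) := by ring
    _ ≤ 10 ^ 7 * (pl mu * X ^ 4) := by gcongr
    _ ≤ pl mu * (60 * X) ^ (3 + 1) := by
        have h3 : 0 ≤ pl mu * X ^ 4 := by positivity
        have h4 : pl mu * (60 * X) ^ (3 + 1) = 12960000 * (pl mu * X ^ 4) := by ring
        rw [h4]
        nlinarith

end Pool.Agent.H27.L1.H31.M3
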