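import Pool.Agent.H27.L1.H31.GK.TG
import Pool.Agent.H27.L1.H23.GHK.WTS

/-!
Board ghk (MP_52e316_nt): the targets of TG.lean with the radius `r` as a parameter.
-/

namespace Pool.Agent.H27.L1.H31.GK

open MeasureTheory Pool.Agent.H27.L1.H34.GM Pool.Agent.H27.L1.H34.GZ Pool.Agent.H27.L1.H34.GU Pool.Agent.H27.L1.H34.GA
  Pool.Agent.H27.L1.H68.GHY

/-- the mass of the matrix coefficient near the unit matrix -/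
noncomputable def Hr {m N : ℕ} [NeZero N] (r : ℝ) (D : Set (V m)) (F : Mat m → VN m N → ℂ) : ℝ :=
  ∫ z in Bl m r, ‖ipz D F F (mt z)‖ ^ 2 ∂(hm m)

/-- the balls -/
def T_BLR : Prop := ∀ m : ℕ, 1 ≤ m → ∀ r : ℝ, 0 < r → r ≤ 1 / (2 * m) →
  MeasurableSet (Bl m r) ∧ (∀ z ∈ Bl m r, (mt z).det ≠ 0) ∧ hm m (Bl m r) < ⊤ ∧
  0 < hm m (Bl m r) ∧
  ∀ z ∈ Bl m (r / (4 * m)), ∀ w ∈ Bl m (r / (4 * m)), sz ((mt w)⁻¹ * mt z - 1) ≤ r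

/-- averages of translates -/
def T_GHR : Prop := ∀ (m N : ℕ) [NeZero N] (T : ℕ → Finset (ZM m)) (D : Set (V m)),
  SysZ m N T D → ∀ r : ℝ, 0 < r → r ≤ 1 / (2 * m) →
  ∀ (F : Mat m → VN m N → ℂ) (lam : ℕ → ℂ), HecA m N T F lam →
  ∀ (c : V m → ℂ) (M : ℝ), Measurable c → (∀ z, ‖c z‖ ≤ M) →
    HecA m N T (fun g x => ∫ z in Bl m r, c z * F (g * mt z) x ∂(hm m)) lam ∧
    ∀ Φ : Mat m → ℂ, Tg m Φ → ∀ (g : Mat m) (x : VN m N), g.det ≠ 0 →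
      Rr Φ 1 (fun g x => ∫ z in Bl m r, c z * F (g * mt z) x ∂(hm m)) g x =
        ∫ z in Bl m r, c z * Rr Φ 1 (trn (mt z) F) g x ∂(hm m)

/-- the double integral -/
def T_QIR : Prop := ∀ (m N : ℕ) [NeZero N] (T : ℕ → Finset (ZM m)) (D : Set (V m)),
  SysZ m N T D → ∀ r : ℝ, 0 < r → r ≤ 1 / (2 * m) →
  ∀ (F : Mat m → VN m N → ℂ) (lam : ℕ → ℂ), HecA m N T F lam →
    ∫ p, ‖ipz D F F ((mt p.2)⁻¹ * mt p.1)‖ ^ 2 ∂(((hm m).restrict (Bl m (r / (4 * m)))).prod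
      ((hm m).restrict (Bl m (r / (4 * m))))) ≤ (hm m (Bl m (r / (4 * m)))).toReal * Hr r D F

/-- the inequality of Bessel with the weights `W i ≤ 1 / Hr` -/
def T_BER : Prop := ∀ (m : ℕ) (r : ℝ) (χ : ℝ → ℝ), 1 ≤ m → 0 < r → r ≤ 1 / (2 * m) → Prof χ →
  ∃ (c C : ℝ) (A : ℕ), 0 < c ∧ 1 ≤ C ∧
  ∀ (N : ℕ) [NeZero N] (T : ℕ → Finset (ZM m)) (D : Set (V m)), SysZ m N T D →
  ∀ (ι : Type) [Fintype ι] [DecidableEq ι] (F : ι → Mat m → VN m N → ℂ) (lam : ι → ℕ → ℂ) (P : ℝ)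
    (W : ι → ℝ),
  (∀ i, CusB m N T (F i) (lam i) ∧ Lip D (F i) P ∧ nU D (F i) = 1) → Sep D F → 0 ≤ P →
  (∀ i, 0 ≤ W i) → (∀ i, W i * Hr r D (F i) ≤ 1) →
  ∀ δ : ℝ, 0 < δ → δ ≤ 1 / 2 → δ * (1 + P) ≤ c →
  ∀ Y : ℝ, C * N * δ⁻¹ ^ A ≤ Y →
    Pool.Agent.H27.L1.H23.GHK.BESp m (fun i => ENNReal.ofReal (W i)) lam N D χ c δ Y

end Pool.Agent.H27.L1.H31.GK
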